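import Mathlib

/-!
MP_e86a57_co.  The set of limit points of `|Aut L| / |End L|` over finite lattices `L`, `|L| → ∞`,
is the whole interval `[0,1]`.
-/

namespace Pool.Agent.Results.MP_e86a57_co.LimitSet

open Filter Topology

/-- The ratio `|Aut(L)| / |End_l(L)|`: lattice automorphisms over lattice endomorphisms
preserving `0` and `1`. -/
noncomputable def ratio (L : Type) [Lattice L] [BoundedOrder L] : ℝ :=
  (Nat.card (L ≃o L) : ℝ) / (Nat.card (BoundedLatticeHom L L) : ℝ)

/-- The limiting set `Λ`. -/
def limitingSet : Set ℝ :=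
  {x | ∃ (L : ℕ → Type) (i1 : ∀ k, Lattice (L k)) (i2 : ∀ k, BoundedOrder (L k)),
    (∀ k, Finite (L k)) ∧ Tendsto (fun k => Nat.card (L k)) atTop atTop ∧
      Tendsto (fun k => @ratio (L k) (i1 k) (i2 k)) atTop (𝓝 x)}

/-- The lattices used: `⊥ < b < a i < t < ⊤` and `⊥ < q j < ⊤`. -/
inductive E (n p : ℕ) : Type
  | bot : E n p
  | top : E n p
  | b : E n p
  | t : E n p
  | a (i : Fin n) : E n p
  | q (j : Fin p) : E n p
  deriving DecidableEq

namespace E

variable {n p : ℕ}

def le : E n p → E n p → Prop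
  | bot, _ => True
  | _, top => True
  | b, b => True
  | b, a _ => True
  | b, t => True
  | a i, a j => i = j
  | a _, t => True
  | t, t => True
  | q i, q j => i = j
  | _, _ => False

def sup : E n p → E n p → E n p
  | bot, x => x
  | x, bot => x
  | top, _ => top
  | _, top => top
  | q i, q j => if i = j then q i else top
  | q _, _ => top
  | _, q _ => top
  | t, _ => t
  | _, t => t
  | b, x => x
  | x, b => x
  | a i, a j => if i = j then a i else t

def inf : E n p → E n p → E n p
  | top, x => x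
  | x, top => x
  | bot, _ => bot
  | _, bot => bot
  | q i, q j => if i = j then q i else bot
  | q _, _ => bot
  | _, q _ => bot
  | b, _ => b
  | _, b => b
  | t, x => x
  | x, t => x
  | a i, a j => if i = j then a i else b

theorem le_refl' (x : E n p) : le x x := by cases x <;> simp [le]

theorem le_trans' (x y z : E n p) : le x y → le y z → le x z := by
  cases x <;> cases y <;> cases z <;> simp [le]
  all_goals (rintro rfl; simp)

theorem le_antisymm' (x y : E n p) : le x y → le y x → x = y := by
  cases x <;> cases y <;> simp [le]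
  all_goals (intro h _; exact h)

theorem le_sup_left' (x y : E n p) : le x (sup x y) := by
  cases x <;> cases y <;> simp [le, sup]
  all_goals (split_ifs <;> simp)

theorem le_sup_right' (x y : E n p) : le y (sup x y) := by
  cases x <;> cases y <;> simp [le, sup]
  all_goals (split_ifs with h <;> simp [h])

theorem sup_le' (x y z : E n p) : le x z → le y z → le (sup x y) z := by
  cases x <;> cases y <;> cases z <;> simp [le, sup]
  all_goals (try split_ifs) <;> simp_all
  all_goals (rintro rfl; exact fun h => by simp_all)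

theorem inf_le_left' (x y : E n p) : le (inf x y) x := by
  cases x <;> cases y <;> simp [le, inf]
  all_goals (split_ifs <;> simp)

theorem inf_le_right' (x y : E n p) : le (inf x y) y := by
  cases x <;> cases y <;> simp [le, inf]
  all_goals (split_ifs with h <;> simp [h])

theorem le_inf' (x y z : E n p) : le x y → le x z → le x (inf y z) := by
  cases x <;> cases y <;> cases z <;> simp [le, inf]
  all_goals (try split_ifs) <;> simp_all

instance : Lattice (E n p) where
  le := le
  le_refl := le_refl'
  le_trans := le_trans'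
  le_antisymm := le_antisymm'
  sup := sup
  inf := inf
  le_sup_left := le_sup_left'
  le_sup_right := le_sup_right'
  sup_le := sup_le'
  inf_le_left := inf_le_left'
  inf_le_right := inf_le_right'
  le_inf := le_inf'

instance : BoundedOrder (E n p) where
  top := top
  bot := bot
  le_top x := by cases x <;> trivial
  bot_le x := by cases x <;> trivial

theorem sup_def (x y : E n p) : x ⊔ y = sup x y := rfl
theorem inf_def (x y : E n p) : x ⊓ y = inf x y := rfl
theorem le_def (x y : E n p) : x ≤ y ↔ le x y := Iff.rfl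
theorem bot_def : (⊥ : E n p) = bot := rfl
theorem top_def : (⊤ : E n p) = top := rfl

/-- the middle block -/
def ι : Option (Option (Fin n)) → E n p
  | none => b
  | some none => t
  | some (some i) => a i

theorem ι_inj : Function.Injective (ι : Option (Option (Fin n)) → E n p) := by
  rintro (_ | _ | i) (_ | _ | j) h <;> simp_all [ι]

/-- automorphism type data -/
def fA (π : Equiv.Perm (Fin p)) (σ : Equiv.Perm (Fin n)) : E n p → E n p
  | bot => bot
  | top => top
  | b => b
  | t => t
  | a i => a (σ i)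
  | q j => q (π j)

/-- middle block constant -/
def fB (π : Equiv.Perm (Fin p)) (c : Option (Option (Fin n))) : E n p → E n p
  | bot => bot
  | top => top
  | b => ι c
  | t => ι c
  | a _ => ι c
  | q j => q (π j)

/-- middle block sent to a point -/
def fC (π : Equiv.Perm (Fin p)) (j0 : Fin p) (c : Option (Option (Fin n))) : E n p → E n p
  | bot => bot
  | top => top
  | b => q (π j0)
  | t => q (π j0)
  | a _ => q (π j0)
  | q j => if j = j0 then ι c else q (π j)

theorem fA_sup (π : Equiv.Perm (Fin p)) (σ : Equiv.Perm (Fin n)) (x y : E n p) :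
    fA π σ (sup x y) = sup (fA π σ x) (fA π σ y) := by
  cases x <;> cases y <;> simp [fA, sup]
  all_goals (split_ifs <;> simp)

theorem fA_inf (π : Equiv.Perm (Fin p)) (σ : Equiv.Perm (Fin n)) (x y : E n p) :
    fA π σ (inf x y) = inf (fA π σ x) (fA π σ y) := by
  cases x <;> cases y <;> simp [fA, inf]
  all_goals (split_ifs <;> simp)

theorem fB_sup (π : Equiv.Perm (Fin p)) (c : Option (Option (Fin n))) (x y : E n p) :
    fB π c (sup x y) = sup (fB π c x) (fB π c y) := by
  rcases c with _ | _ | c <;> cases x <;> cases y <;> simp [fB, sup, ι]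
  all_goals (split_ifs <;> simp)

theorem fB_inf (π : Equiv.Perm (Fin p)) (c : Option (Option (Fin n))) (x y : E n p) :
    fB π c (inf x y) = inf (fB π c x) (fB π c y) := by
  rcases c with _ | _ | c <;> cases x <;> cases y <;> simp [fB, inf, ι]
  all_goals (split_ifs <;> simp)

theorem fC_sup (π : Equiv.Perm (Fin p)) (j0 : Fin p) (c : Option (Option (Fin n))) (x y : E n p) :
    fC π j0 c (sup x y) = sup (fC π j0 c x) (fC π j0 c y) := by
  rcases c with _ | _ | c <;> cases x <;> cases y <;> simp [fC, sup, ι]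
  all_goals (split_ifs <;> simp_all)
  all_goals (exact Ne.symm (by assumption))

theorem fC_inf (π : Equiv.Perm (Fin p)) (j0 : Fin p) (c : Option (Option (Fin n))) (x y : E n p) :
    fC π j0 c (inf x y) = inf (fC π j0 c x) (fC π j0 c y) := by
  rcases c with _ | _ | c <;> cases x <;> cases y <;> simp [fC, inf, ι]
  all_goals (split_ifs <;> simp_all)
  all_goals (exact Ne.symm (by assumption))

/-- complementary elements -/
def Cpl (x y : E n p) : Prop := inf x y = bot ∧ sup x y = top

theorem cpl_three {x y z : E n p} (h1 : Cpl x y) (h2 : Cpl x z) (h3 : Cpl y z) :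
    (∃ c, x = ι c) ∨ ∃ j, x = q j := by
  unfold Cpl at *
  cases x
  · cases y <;> cases z <;> simp_all [inf, sup]
  · cases y <;> cases z <;> simp_all [inf, sup]
  · exact Or.inl ⟨none, rfl⟩
  · exact Or.inl ⟨some none, rfl⟩
  · rename_i i; exact Or.inl ⟨some (some i), rfl⟩
  · rename_i i; exact Or.inr ⟨i, rfl⟩

theorem not_cpl_ι (c d : Option (Option (Fin n))) : ¬ Cpl (ι c : E n p) (ι d) := by
  unfold Cpl
  rcases c with _ | _ | c <;> rcases d with _ | _ | d <;> simp [ι, inf, sup]
  split_ifs <;> simp

theorem cpl_q {i j : Fin p} (h : Cpl (q i : E n p) (q j)) : i ≠ j := by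
  rintro rfl
  simp [Cpl, inf] at h

theorem cpl_q_q {i j : Fin p} (h : i ≠ j) : Cpl (q i : E n p) (q j) := by
  simp [Cpl, inf, sup, h]

theorem cpl_ι_q (c : Option (Option (Fin n))) (j : Fin p) : Cpl (ι c : E n p) (q j) := by
  rcases c with _ | _ | c <;> simp [Cpl, inf, sup, ι]

theorem cpl_q_ι (c : Option (Option (Fin n))) (j : Fin p) : Cpl (q j : E n p) (ι c) := by
  rcases c with _ | _ | c <;> simp [Cpl, inf, sup, ι]

theorem Cpl.symm {x y : E n p} (h : Cpl x y) : Cpl y x := by
  have h1 : x ⊓ y = ⊥ := h.1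
  have h2 : x ⊔ y = ⊤ := h.2
  exact ⟨by rw [← inf_def, inf_comm]; exact h1, by rw [← sup_def, sup_comm]; exact h2⟩

theorem map_cpl {f : E n p → E n p} (hs : ∀ x y, f (sup x y) = sup (f x) (f y))
    (hi : ∀ x y, f (inf x y) = inf (f x) (f y)) (hb : f bot = bot) (ht : f top = top)
    {x y : E n p} (h : Cpl x y) : Cpl (f x) (f y) := by
  refine ⟨?_, ?_⟩
  · rw [← hi, h.1, hb]
  · rw [← hs, h.2, ht]

theorem three_mid (c1 c2 c3 : Option (Option (Fin n))) {β τ : E n p} (hne : β ≠ τ)
    (h12 : inf (ι c1) (ι c2) = β) (h13 : inf (ι c1) (ι c3) = β) (h23 : inf (ι c2) (ι c3) = β)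
    (s12 : sup (ι c1) (ι c2) = τ) (s13 : sup (ι c1) (ι c3) = τ) (s23 : sup (ι c2) (ι c3) = τ) :
    β = b ∧ τ = t ∧ ∃ i : Fin n, (ι c1 : E n p) = a i := by
  subst h12
  subst s12
  revert hne h13 h23 s13 s23
  rcases c1 with _ | _ | c1 <;> rcases c2 with _ | _ | c2 <;> rcases c3 with _ | _ | c3 <;>
    simp [ι, inf, sup]
  all_goals first | (split_ifs <;> simp_all) | (intro h1 h2; simp_all)

/-- Classification of the endomorphisms. -/
theorem classify (hp : 2 ≤ p) (hn : 3 ≤ n) (f : E n p → E n p)
    (hs : ∀ x y, f (sup x y) = sup (f x) (f y))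
    (hi : ∀ x y, f (inf x y) = inf (f x) (f y)) (hb : f bot = bot) (ht : f top = top) :
    (∃ π σ, f = fA π σ) ∨ (∃ π c, f = fB π c) ∨ (∃ π j0 c, f = fC π j0 c) := by
  have hc : ∀ {x y : E n p}, Cpl x y → Cpl (f x) (f y) := fun h => map_cpl hs hi hb ht h
  let p0 : Fin p := ⟨0, by omega⟩
  let p1 : Fin p := ⟨1, by omega⟩
  have hp01 : p0 ≠ p1 := by simp [p0, p1]
  have hq : ∀ j : Fin p, (∃ c, f (q j) = ι c) ∨ ∃ k, f (q j) = q k := by
    intro j
    obtain ⟨k, hk⟩ : ∃ k : Fin p, j ≠ k := by
      by_cases h : j = p0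
      · exact ⟨p1, h ▸ hp01⟩
      · exact ⟨p0, h⟩
    exact cpl_three (hc (cpl_q_q hk)) (hc (cpl_q_ι none j)) (hc (cpl_q_ι none k))
  have hS : ∀ c : Option (Option (Fin n)), (∃ d, f (ι c) = ι d) ∨ ∃ k, f (ι c) = q k := by
    intro c
    exact cpl_three (hc (cpl_ι_q c p0)) (hc (cpl_ι_q c p1)) (hc (cpl_q_q hp01))
  have hbι : ∀ c : Option (Option (Fin n)), inf (b : E n p) (ι c) = b := by
    rintro (_ | _ | c) <;> simp [ι, inf]
  rcases hS none with ⟨d, hd⟩ | ⟨k, hk⟩
  · -- the middle block is mapped to itself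
    have hfb : f b = ι d := hd
    have hg : ∀ j : Fin p, ∃ k, f (q j) = q k := by
      intro j
      rcases hq j with ⟨c, h⟩ | h
      · exfalso
        have := hc (cpl_ι_q (none : Option (Option (Fin n))) j)
        rw [h, hd] at this
        exact not_cpl_ι _ _ this
      · exact h
    choose g hg using hg
    have gi : Function.Injective g := by
      intro i j hij
      by_contra hne
      have := hc (cpl_q_q (n := n) hne)
      rw [hg, hg, hij] at this
      exact cpl_q this rfl
    have gb := Finite.injective_iff_bijective.1 gi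
    have hS' : ∀ c : Option (Option (Fin n)), ∃ d, f (ι c) = ι d := by
      intro c
      rcases hS c with h | ⟨k, hk⟩
      · exact h
      · exfalso
        have := hi b (ι c)
        rw [hbι, hfb, hk] at this
        rw [(cpl_ι_q d k).1] at this
        rcases d with _ | _ | d <;> simp [ι] at this
    by_cases hbt : f b = f t
    · refine Or.inr (Or.inl ⟨Equiv.ofBijective g gb, d, ?_⟩)
      funext x
      cases x
      · exact hb
      · exact ht
      · exact hfb
      · change f t = ι d
        rw [← hbt, hfb]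
      · rename_i i
        change f (a i) = ι d
        have h1 := hi (a i) b
        have h2 := hs (a i) b
        have h3 := hs (a i) t
        simp only [inf, sup] at h1 h2 h3
        rw [← hbt, ← h2] at h3
        rw [← h3, hfb]
      · exact hg _
    · obtain ⟨d1, hd1⟩ := hS' (some none)
      have hft : f t = ι d1 := hd1
      have key : ∀ i : Fin n, f b = b ∧ f t = t ∧ ∃ j, f (a i) = a j := by
        intro i
        obtain ⟨i1, h1⟩ : ∃ i1 : Fin n, i1 ≠ i := by
          by_cases h : i = ⟨0, by omega⟩
          · exact ⟨⟨1, by omega⟩, by rw [h]; simp⟩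
          · exact ⟨⟨0, by omega⟩, fun h' => h h'.symm⟩
        obtain ⟨i2, h2, h3⟩ : ∃ i2 : Fin n, i2 ≠ i ∧ i2 ≠ i1 := by
          have : ({i, i1} : Finset (Fin n)).card < Fintype.card (Fin n) := by
            rw [Fintype.card_fin]
            exact lt_of_le_of_lt Finset.card_le_two hn
          obtain ⟨x, hx⟩ := Finset.exists_mem_notMem_of_card_lt_card
            (s := {i, i1}) (t := Finset.univ) this
          simp only [Finset.mem_insert, Finset.mem_singleton, not_or] at hx
          exact ⟨x, hx.2.1, hx.2.2⟩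
        obtain ⟨c, e⟩ := hS' (some (some i))
        obtain ⟨c1, e1⟩ := hS' (some (some i1))
        obtain ⟨c2, e2⟩ := hS' (some (some i2))
        have hI : ∀ x y : Fin n, x ≠ y → inf (f (a x)) (f (a y)) = f b := by
          intro x y hxy
          rw [← hi]; simp [inf, hxy]
        have hU : ∀ x y : Fin n, x ≠ y → sup (f (a x)) (f (a y)) = f t := by
          intro x y hxy
          rw [← hs]; simp [sup, hxy]
        have e' : f (a i) = ι c := e
        have e1' : f (a i1) = ι c1 := e1
        have e2' : f (a i2) = ι c2 := e2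
        rw [e']
        refine three_mid c c1 c2 hbt ?_ ?_ ?_ ?_ ?_ ?_
        · rw [← e', ← e1']; exact hI _ _ h1.symm
        · rw [← e', ← e2']; exact hI _ _ h2.symm
        · rw [← e1', ← e2']; exact hI _ _ h3.symm
        · rw [← e', ← e1']; exact hU _ _ h1.symm
        · rw [← e', ← e2']; exact hU _ _ h2.symm
        · rw [← e1', ← e2']; exact hU _ _ h3.symm
      have hσ : ∀ i : Fin n, ∃ j, f (a i) = a j := fun i => (key i).2.2
      choose σ hσ using hσ
      have hb0 := (key ⟨0, by omega⟩).1
      have ht0 := (key ⟨0, by omega⟩).2.1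
      have σi : Function.Injective σ := by
        intro i j hij
        by_contra hne
        have := hi (a i) (a j)
        rw [hσ, hσ, hij] at this
        simp [inf, hne, hb0] at this
      refine Or.inl ⟨Equiv.ofBijective g gb,
        Equiv.ofBijective σ (Finite.injective_iff_bijective.1 σi), ?_⟩
      funext x
      cases x
      · exact hb
      · exact ht
      · exact hb0
      · exact ht0
      · exact hσ _
      · exact hg _
  · -- the middle block is mapped to a point
    have hfb : f b = q k := hk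
    have hS' : ∀ c : Option (Option (Fin n)), f (ι c) = q k := by
      intro c
      have h0 := hi b (ι c)
      rw [hbι, hfb] at h0
      rcases hS c with ⟨d, h⟩ | ⟨l, h⟩
      · exfalso
        rw [h, (cpl_q_ι d k).1] at h0
        simp at h0
      · rw [h] at h0 ⊢
        by_cases hkl : k = l
        · rw [hkl]
        · simp [inf, hkl] at h0
    have hg : ∀ j : Fin p, ∃ l, (f (q j) = q l) ∨ ((∃ c, f (q j) = ι c) ∧ l = k) := by
      intro j
      rcases hq j with ⟨c, h⟩ | ⟨l, h⟩
      · exact ⟨k, Or.inr ⟨⟨c, h⟩, rfl⟩⟩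
      · exact ⟨l, Or.inl h⟩
    choose g hg using hg
    have hnk : ∀ j, f (q j) ≠ q k := by
      intro j h
      have := hc (cpl_ι_q (none : Option (Option (Fin n))) j)
      rw [hS', h] at this
      exact cpl_q this rfl
    have gi : Function.Injective g := by
      intro i j hij
      by_contra hne
      have hcc := hc (cpl_q_q (n := n) hne)
      rcases hg i with h1 | ⟨⟨c, h1⟩, h1'⟩
      · rcases hg j with h2 | ⟨⟨c', h2⟩, h2'⟩
        · rw [h1, h2, hij] at hcc
          exact cpl_q hcc rfl
        · rw [hij, h2'] at h1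
          exact hnk _ h1
      · rcases hg j with h2 | ⟨⟨c', h2⟩, h2'⟩
        · rw [← hij, h1'] at h2
          exact hnk _ h2
        · rw [h1, h2] at hcc
          exact not_cpl_ι _ _ hcc
    have gb := Finite.injective_iff_bijective.1 gi
    obtain ⟨j0, hj0⟩ := gb.2 k
    have hj0' : ∃ c, f (q j0) = ι c := by
      rcases hg j0 with h | h
      · rw [hj0] at h
        exact absurd h (hnk _)
      · exact h.1
    obtain ⟨c, hcj⟩ := hj0'
    refine Or.inr (Or.inr ⟨Equiv.ofBijective g gb, j0, c, ?_⟩)
    have hπ : (Equiv.ofBijective g gb) j0 = k := hj0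
    funext x
    cases x
    · exact hb
    · exact ht
    · change f b = q ((Equiv.ofBijective g gb) j0)
      rw [hπ, hfb]
    · change f (ι (some none)) = q ((Equiv.ofBijective g gb) j0)
      rw [hπ, hS']
    · rename_i i
      change f (ι (some (some i))) = q ((Equiv.ofBijective g gb) j0)
      rw [hπ, hS']
    · rename_i j
      change f (q j) = if j = j0 then ι c else q (g j)
      split_ifs with h
      · rw [h, hcj]
      · rcases hg j with h1 | ⟨_, h2⟩
        · exact h1
        · exact absurd (gi (h2.trans hj0.symm)) h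

/-- data describing the endomorphisms -/
abbrev D (n p : ℕ) := Equiv.Perm (Fin p) × (Equiv.Perm (Fin n) ⊕
  (Option (Option (Fin n)) ⊕ (Fin p × Option (Option (Fin n)))))

def Φ : D n p → BoundedLatticeHom (E n p) (E n p)
  | (π, Sum.inl σ) => ⟨⟨⟨fA π σ, fA_sup π σ⟩, fA_inf π σ⟩, rfl, rfl⟩
  | (π, Sum.inr (Sum.inl c)) => ⟨⟨⟨fB π c, fB_sup π c⟩, fB_inf π c⟩, rfl, rfl⟩
  | (π, Sum.inr (Sum.inr (j0, c))) => ⟨⟨⟨fC π j0 c, fC_sup π j0 c⟩, fC_inf π j0 c⟩, rfl, rfl⟩

theorem Φ_surj (hp : 2 ≤ p) (hn : 3 ≤ n) : Function.Surjective (Φ : D n p → _) := by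
  intro f
  have h := classify hp hn (fun x => f x) (fun x y => map_sup f x y) (fun x y => map_inf f x y)
    (map_bot f) (map_top f)
  rcases h with ⟨π, σ, h⟩ | ⟨π, c, h⟩ | ⟨π, j0, c, h⟩
  · exact ⟨(π, Sum.inl σ), DFunLike.ext _ _ (fun x => (congrFun h x).symm)⟩
  · exact ⟨(π, Sum.inr (Sum.inl c)), DFunLike.ext _ _ (fun x => (congrFun h x).symm)⟩
  · exact ⟨(π, Sum.inr (Sum.inr (j0, c))), DFunLike.ext _ _ (fun x => (congrFun h x).symm)⟩

theorem ι_ne_q (c : Option (Option (Fin n))) (j : Fin p) : (ι c : E n p) ≠ q j := by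
  rcases c with _ | _ | c <;> simp [ι]

theorem fA_inj {π π' : Equiv.Perm (Fin p)} {σ σ' : Equiv.Perm (Fin n)} (h : fA π σ = fA π' σ') :
    π = π' ∧ σ = σ' := by
  refine ⟨Equiv.ext fun j => ?_, Equiv.ext fun i => ?_⟩
  · have := congrFun h (q j)
    simpa [fA] using this
  · have := congrFun h (a i)
    simpa [fA] using this

theorem fB_inj {π π' : Equiv.Perm (Fin p)} {c c' : Option (Option (Fin n))}
    (h : (fB π c : E n p → E n p) = fB π' c') : π = π' ∧ c = c' := by
  refine ⟨Equiv.ext fun j => ?_, ?_⟩
  · have := congrFun h (q j)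
    simpa [fB] using this
  · have := congrFun h b
    exact ι_inj this

theorem fC_inj {π π' : Equiv.Perm (Fin p)} {j0 j0' : Fin p} {c c' : Option (Option (Fin n))}
    (h : (fC π j0 c : E n p → E n p) = fC π' j0' c') : π = π' ∧ j0 = j0' ∧ c = c' := by
  have hb : π j0 = π' j0' := by
    have := congrFun h b
    simpa [fC] using this
  have hj : ∀ j, (if j = j0 then (ι c : E n p) else q (π j)) =
      if j = j0' then ι c' else q (π' j) := fun j => congrFun h (q j)
  have hjj : j0 = j0' := by
    by_contra hne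
    have := hj j0
    rw [if_pos rfl, if_neg hne] at this
    exact ι_ne_q _ _ this
  subst hjj
  refine ⟨Equiv.ext fun j => ?_, rfl, ?_⟩
  · by_cases h : j = j0
    · rw [h, hb]
    · have := hj j
      rw [if_neg h, if_neg h] at this
      simpa using this
  · have := hj j0
    rw [if_pos rfl, if_pos rfl] at this
    exact ι_inj this

theorem Φ_inj : Function.Injective (Φ : D n p → _) := by
  have hAB : ∀ (π π' : Equiv.Perm (Fin p)) (σ : Equiv.Perm (Fin n)) c, fA π σ ≠ fB π' c := by
    intro π π' σ c h
    have h1 : (b : E n p) = ι c := congrFun h b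
    have h2 : (t : E n p) = ι c := congrFun h t
    rw [← h2] at h1
    exact absurd h1 (by simp)
  have hAC : ∀ (π π' : Equiv.Perm (Fin p)) (σ : Equiv.Perm (Fin n)) j c, fA π σ ≠ fC π' j c := by
    intro π π' σ j c h
    have h1 : (b : E n p) = q (π' j) := congrFun h b
    exact absurd h1 (by simp)
  have hBC : ∀ (π π' : Equiv.Perm (Fin p)) c' j c, (fB π c' : E n p → E n p) ≠ fC π' j c := by
    intro π π' c' j c h
    have h1 : ι c' = q (π' j) := congrFun h b
    exact ι_ne_q _ _ h1
  have hcoe : ∀ x y : D n p, Φ x = Φ y → (fun z => Φ x z) = fun z => Φ y z := by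
    intro x y h; rw [h]
  rintro ⟨π, σ | c | ⟨j, c⟩⟩ ⟨π', σ' | c' | ⟨j', c'⟩⟩ h
  · have := fA_inj (hcoe _ _ h)
    rw [this.1, this.2]
  · exact absurd (hcoe _ _ h) (hAB _ _ _ _)
  · exact absurd (hcoe _ _ h) (hAC _ _ _ _ _)
  · exact absurd (hcoe _ _ h).symm (hAB _ _ _ _)
  · have := fB_inj (hcoe _ _ h)
    rw [this.1, this.2]
  · exact absurd (hcoe _ _ h) (hBC _ _ _ _ _)
  · exact absurd (hcoe _ _ h).symm (hAC _ _ _ _ _)
  · exact absurd (hcoe _ _ h).symm (hBC _ _ _ _ _)
  · have := fC_inj (hcoe _ _ h)
    rw [this.1, this.2.1, this.2.2]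

theorem card_end (hp : 2 ≤ p) (hn : 3 ≤ n) :
    Nat.card (BoundedLatticeHom (E n p) (E n p)) = p.factorial * (n.factorial + (n + 2) * (p + 1)) := by
  rw [← Nat.card_congr (Equiv.ofBijective Φ ⟨Φ_inj, Φ_surj hp hn⟩), Nat.card_eq_fintype_card]
  simp only [Fintype.card_prod, Fintype.card_sum, Fintype.card_perm, Fintype.card_option,
    Fintype.card_fin]
  ring

/-- automorphisms -/
def Ψ (x : Equiv.Perm (Fin p) × Equiv.Perm (Fin n)) : E n p ≃o E n p where
  toFun := fA x.1 x.2
  invFun := fA x.1.symm x.2.symm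
  left_inv y := by cases y <;> simp [fA]
  right_inv y := by cases y <;> simp [fA]
  map_rel_iff' := by
    intro y z
    change le _ _ ↔ le _ _
    cases y <;> cases z <;> simp [fA, le]

theorem card_aut (hp : 2 ≤ p) (hn : 3 ≤ n) :
    Nat.card (E n p ≃o E n p) = p.factorial * n.factorial := by
  have hbij : Function.Bijective (Ψ : Equiv.Perm (Fin p) × Equiv.Perm (Fin n) → (E n p ≃o E n p)) := by
    constructor
    · rintro ⟨π, σ⟩ ⟨π', σ'⟩ h
      have h' : fA π σ = fA π' σ' := by
        funext z
        exact congrArg (fun f : E n p ≃o E n p => f z) h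
      have := fA_inj h'
      rw [this.1, this.2]
    · intro f
      have h := classify hp hn (fun x => f x) (fun x y => map_sup f x y) (fun x y => map_inf f x y)
        (map_bot f) (map_top f)
      rcases h with ⟨π, σ, h⟩ | ⟨π, c, h⟩ | ⟨π, j0, c, h⟩
      · exact ⟨(π, σ), DFunLike.ext _ _ (fun x => (congrFun h x).symm)⟩
      · exfalso
        have h1 : f b = ι c := congrFun h b
        have h2 : f t = ι c := congrFun h t
        exact absurd (f.injective (h1.trans h2.symm)) (by simp)
      · exfalso
        have h1 : f b = q (π j0) := congrFun h b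
        have h2 : f t = q (π j0) := congrFun h t
        exact absurd (f.injective (h1.trans h2.symm)) (by simp)
  rw [← Nat.card_congr (Equiv.ofBijective Ψ hbij), Nat.card_eq_fintype_card]
  simp only [Fintype.card_prod, Fintype.card_perm, Fintype.card_fin]

instance : Finite (E n p) := by
  let g : E n p → Option (Option (Option (Option (Fin n ⊕ Fin p)))) := fun x => match x with
    | bot => none
    | top => some none
    | b => some (some none)
    | t => some (some (some none))
    | a i => some (some (some (some (Sum.inl i))))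
    | q j => some (some (some (some (Sum.inr j))))
  refine Finite.of_injective g ?_
  intro x y h
  cases x <;> cases y <;> simp_all [g]

theorem card_ge : n ≤ Nat.card (E n p) := by
  have : Nat.card (Fin n) ≤ Nat.card (E n p) :=
    Nat.card_le_card_of_injective (fun i => a i) (fun i j h => by simpa using h)
  simpa using this

theorem ratio_eq (hp : 2 ≤ p) (hn : 3 ≤ n) :
    ratio (E n p) = 1 / (1 + ((n : ℝ) + 2) * (p + 1) / (n.factorial : ℝ)) := by
  unfold ratio
  rw [card_end hp hn, card_aut hp hn]
  have h1 : (p.factorial : ℝ) ≠ 0 := by exact_mod_cast Nat.factorial_ne_zero p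
  have h2 : (n.factorial : ℝ) ≠ 0 := by exact_mod_cast Nat.factorial_ne_zero n
  push_cast
  field_simp

end E

/-- automorphisms inject into endomorphisms -/
theorem ratio_mem (L : Type) [Lattice L] [BoundedOrder L] [Finite L] :
    0 ≤ ratio L ∧ ratio L ≤ 1 := by
  have : Finite (BoundedLatticeHom L L) :=
    Finite.of_injective (fun f => (f : L → L)) DFunLike.coe_injective
  have h : Nat.card (L ≃o L) ≤ Nat.card (BoundedLatticeHom L L) := by
    refine Nat.card_le_card_of_injective (fun f : L ≃o L => (f : BoundedLatticeHom L L)) ?_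
    intro f g hfg
    refine DFunLike.ext _ _ (fun x => ?_)
    exact congrArg (fun u : BoundedLatticeHom L L => u x) hfg
  unfold ratio
  refine ⟨by positivity, ?_⟩
  exact div_le_one_of_le₀ (by exact_mod_cast h) (by positivity)

theorem lim_aux :
    Tendsto (fun k : ℕ => (((k + 3 : ℕ) : ℝ) + 2) / ((k + 3).factorial : ℝ)) atTop (𝓝 0) := by
  have h2 : Tendsto (fun k : ℕ => (2 : ℝ) * (1 / ((k : ℝ) + 1))) atTop (𝓝 0) := by
    have := (tendsto_one_div_add_atTop_nhds_zero_nat (𝕜 := ℝ)).const_mul 2
    simpa using this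
  refine squeeze_zero (fun k => by positivity) (fun k => ?_) h2
  have hf : ((k + 3) * (k + 2) : ℕ) ≤ (k + 3).factorial := by
    rw [Nat.factorial_succ, Nat.factorial_succ, ← mul_assoc]
    exact Nat.le_mul_of_pos_right _ (Nat.factorial_pos (k + 1))
  have hf' : ((k : ℝ) + 3) * (k + 2) ≤ ((k + 3).factorial : ℝ) := by exact_mod_cast hf
  have hk : (0 : ℝ) ≤ k := Nat.cast_nonneg k
  rw [mul_one_div, div_le_div_iff₀ (by positivity) (by positivity)]
  push_cast
  nlinarith

/-- **Answer to Q1**: `Λ = [0,1]`. -/
theorem result : limitingSet = Set.Icc 0 1 := by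
  ext x
  constructor
  · rintro ⟨L, i1, i2, hfin, _, hlim⟩
    refine isClosed_Icc.mem_of_tendsto hlim (Eventually.of_forall fun k => ?_)
    have := hfin k
    exact @ratio_mem (L k) (i1 k) (i2 k) this
  · rintro ⟨hx0, hx1⟩
    suffices h : ∃ p : ℕ → ℕ, (∀ k, 2 ≤ p k) ∧ Tendsto (fun k : ℕ => 1 / (1 + (((k + 3 : ℕ) : ℝ) + 2)
        * ((p k : ℝ) + 1) / ((k + 3).factorial : ℝ))) atTop (𝓝 x) by
      obtain ⟨p, hp, hlim⟩ := h
      refine ⟨fun k => E (k + 3) (p k), fun k => inferInstance, fun k => inferInstance,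
        fun k => inferInstance, ?_, ?_⟩
      · refine tendsto_atTop_mono (fun k => ?_) tendsto_id
        exact le_trans (by simp) (E.card_ge (n := k + 3) (p := p k))
      · refine hlim.congr (fun k => ?_)
        exact (E.ratio_eq (hp k) (by omega)).symm
    rcases hx0.eq_or_lt with hx | hx
    · subst hx
      refine ⟨fun k => (k + 3).factorial + 2, fun k => Nat.le_add_left _ _, ?_⟩
      refine squeeze_zero (fun k => by positivity) (fun k => ?_)
        (tendsto_one_div_add_atTop_nhds_zero_nat (𝕜 := ℝ))
      have hF : (0 : ℝ) < ((k + 3).factorial : ℝ) := by exact_mod_cast Nat.factorial_pos _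
      have hk : (0 : ℝ) ≤ k := Nat.cast_nonneg k
      refine one_div_le_one_div_of_le (by positivity) ?_
      have : (k : ℝ) ≤ (((k + 3 : ℕ) : ℝ) + 2) * ((((k + 3).factorial + 2 : ℕ) : ℝ) + 1)
          / ((k + 3).factorial : ℝ) := by
        rw [le_div_iff₀ hF]
        push_cast
        nlinarith [mul_nonneg hk hF.le]
      linarith
    · obtain ⟨y, hydef⟩ : ∃ y, y = (1 - x) / x := ⟨_, rfl⟩
      have hy : 0 ≤ y := by rw [hydef]; exact div_nonneg (by linarith) hx.le
      refine ⟨fun k => ⌊((k + 3).factorial : ℝ) * y / (((k + 3 : ℕ) : ℝ) + 2)⌋₊ + 2,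
        fun k => Nat.le_add_left _ _, ?_⟩
      have hv : Tendsto (fun k : ℕ => (((k + 3 : ℕ) : ℝ) + 2)
          * (((⌊((k + 3).factorial : ℝ) * y / (((k + 3 : ℕ) : ℝ) + 2)⌋₊ + 2 : ℕ) : ℝ) + 1)
          / ((k + 3).factorial : ℝ)) atTop (𝓝 y) := by
        have hlo : Tendsto (fun k : ℕ => y + 2 * ((((k + 3 : ℕ) : ℝ) + 2)
          / ((k + 3).factorial : ℝ))) atTop (𝓝 y) := by
          have := (lim_aux.const_mul 2).const_add y
          simpa using this
        have hhi : Tendsto (fun k : ℕ => y + 3 * ((((k + 3 : ℕ) : ℝ) + 2)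
          / ((k + 3).factorial : ℝ))) atTop (𝓝 y) := by
          have := (lim_aux.const_mul 3).const_add y
          simpa using this
        refine tendsto_of_tendsto_of_tendsto_of_le_of_le hlo hhi (fun k => ?_) (fun k => ?_)
        · have hF : (0 : ℝ) < ((k + 3).factorial : ℝ) := by exact_mod_cast Nat.factorial_pos _
          have hm : (0 : ℝ) < ((k + 3 : ℕ) : ℝ) + 2 := by positivity
          have h1 := Nat.lt_floor_add_one (((k + 3).factorial : ℝ) * y / (((k + 3 : ℕ) : ℝ) + 2))
          rw [div_lt_iff₀ hm] at h1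
          change y + 2 * ((((k + 3 : ℕ) : ℝ) + 2) / ((k + 3).factorial : ℝ)) ≤ _
          rw [le_div_iff₀ hF]
          have e : (y + 2 * ((((k + 3 : ℕ) : ℝ) + 2) / ((k + 3).factorial : ℝ)))
              * ((k + 3).factorial : ℝ) = ((k + 3).factorial : ℝ) * y
              + 2 * (((k + 3 : ℕ) : ℝ) + 2) := by field_simp
          rw [e]
          push_cast at h1 ⊢
          nlinarith
        · have hF : (0 : ℝ) < ((k + 3).factorial : ℝ) := by exact_mod_cast Nat.factorial_pos _
          have hm : (0 : ℝ) < ((k + 3 : ℕ) : ℝ) + 2 := by positivity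
          have h1 := Nat.floor_le (show 0 ≤ ((k + 3).factorial : ℝ) * y / (((k + 3 : ℕ) : ℝ) + 2) by
            positivity)
          rw [le_div_iff₀ hm] at h1
          change _ ≤ y + 3 * ((((k + 3 : ℕ) : ℝ) + 2) / ((k + 3).factorial : ℝ))
          rw [div_le_iff₀ hF]
          have e : (y + 3 * ((((k + 3 : ℕ) : ℝ) + 2) / ((k + 3).factorial : ℝ)))
              * ((k + 3).factorial : ℝ) = ((k + 3).factorial : ℝ) * y
              + 3 * (((k + 3 : ℕ) : ℝ) + 2) := by field_simp
          rw [e]
          push_cast at h1 ⊢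
          nlinarith
      have h3 := (tendsto_const_nhds (x := (1 : ℝ))).div (hv.const_add 1)
        (by positivity : (1 : ℝ) + y ≠ 0)
      have e : 1 / (1 + y) = x := by
        rw [hydef]; field_simp; ring
      rw [e] at h3
      exact h3

end Pool.Agent.Results.MP_e86a57_co.LimitSet
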